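import Pool.Agent.H85.NC.Fg
import Pool.Agent.H85.NC.Geo

/-!
# An obstruction to non-commutative crepant resolutions of threefolds: irregular crepant divisors
-/

namespace Pool.Agent.Results.MP_edf92a_ag.IrregularDivisors

open Pool.Agent.H85.NC

/-- a finitely generated commutative group is countable. -/
theorem countable_of_fg (G : Type*) [AddCommGroup G] [h : AddGroup.FG G] : Countable G := by
  have h1 : Module.Finite ℤ G := Module.Finite.iff_addGroup_fg.2 h
  obtain ⟨n, f, hf⟩ := Module.Finite.exists_fin' ℤ G
  exact hf.countable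

/-- a group with a homomorphism with countable kernel to a countable group is countable. -/
theorem countable_of_ker {G H : Type*} [AddCommGroup G] [AddCommGroup H] (f : G →+ H)
    [Countable H] (hk : Countable f.ker) : Countable G := by
  classical
  choose g hg using fun y : f.range => y.2
  have hinj : Function.Injective (fun x : G =>
      ((⟨f x, ⟨x, rfl⟩⟩ : f.range), (⟨x - g ⟨f x, ⟨x, rfl⟩⟩, by
        rw [AddMonoidHom.mem_ker, map_sub, hg, sub_self]⟩ : f.ker))) := by
    intro x x' h
    simp only [Prod.mk.injEq, Subtype.mk.injEq] at h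
    obtain ⟨h1, h2⟩ := h
    have h3 : (⟨f x, ⟨x, rfl⟩⟩ : f.range) = ⟨f x', ⟨x', rfl⟩⟩ := Subtype.ext h1
    rw [h3] at h2
    exact sub_left_injective h2
  have : Countable f.range := Subtype.countable
  exact hinj.countable

theorem result : Statement := by
  intro R _ _ _ _ _ hG _ m _ S ⟨Y, D, hq⟩ M _ _ hM
  have hR : IsNoetherianRing R := hG.1
  have hfin : Module.Finite R M := hM.fin
  -- the Grothendieck group of the modules of finite length is finitely generated
  have h1 : AddGroup.FG (K0 m (Module.End R M)) := K0_fg
  obtain ⟨Y', ⟨e⟩⟩ := S.nccr M hM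
  obtain ⟨e'⟩ := S.flop Y Y'
  obtain ⟨f, hf⟩ := S.det Y D
  have h2 : Countable (K0 m (Module.End R M)) := countable_of_fg _
  have h3 : Countable (S.K Y) := (e'.trans e).injective.countable
  have h4 : Countable (Additive (ClassGroup (S.B Y D))) := hf.countable
  obtain ⟨g, hg⟩ := S.restr Y D
  have h5 : Countable g.ker := by
    have := (AddGroup.fg_iff_addSubgroup_fg _).2 hg
    exact countable_of_fg _
  have h6 : Countable (S.Pic Y D) := countable_of_ker g h5
  obtain ⟨u, hu⟩ := S.pic0 Y D
  have h7 : Countable u.ker := by
    have := (AddGroup.fg_iff_addSubgroup_fg _).2 hu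
    exact countable_of_fg _
  have h8 : Countable (Fin (S.irr Y D) → ℂ) := countable_of_ker u h7
  have h9 : Countable ℂ := by
    refine Function.Injective.countable (f := fun (z : ℂ) (_ : Fin (S.irr Y D)) => z) ?_
    intro a b hab
    exact congrFun hab ⟨0, hq⟩
  have h10 : Countable ℝ := Complex.ofReal_injective.countable
  exact not_countable h10

end Pool.Agent.Results.MP_edf92a_ag.IrregularDivisors
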